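import Pool.Agent.Q81.SumSq
import Mathlib.Analysis.Convex.Basic

set_option autoImplicit false

open MvPolynomial

namespace Pool.Agent.Results.MP_9eb66c_ag.NotConvex

open Pool.Agent.Q81.SumSq

/-- A real polynomial is *sos* if it is a finite sum of squares of real polynomials. -/
def IsSos {n : ℕ} (p : MvPolynomial (Fin n) ℝ) : Prop :=
  ∃ (m : ℕ) (g : Fin m → MvPolynomial (Fin n) ℝ), p = ∑ i, g i ^ 2

/-- The Artin cone `A^r_{n,2d}`: forms `p` of degree `2d` in `n` variables such that `p * q` is sos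
for some nonzero sos form `q` of degree `2r`. -/
def artinCone (n d r : ℕ) : Set (MvPolynomial (Fin n) ℝ) :=
  {p | p.IsHomogeneous (2 * d) ∧
    ∃ q : MvPolynomial (Fin n) ℝ, q ≠ 0 ∧ q.IsHomogeneous (2 * r) ∧ IsSos q ∧ IsSos (p * q)}

/-- The Motzkin form `a⁴b² + a²b⁴ - 3a²b²c² + c⁶`. -/
noncomputable def motzkin {n : ℕ} (a b c : MvPolynomial (Fin n) ℝ) : MvPolynomial (Fin n) ℝ :=
  a ^ 4 * b ^ 2 + a ^ 2 * b ^ 4 - 3 * (a ^ 2 * b ^ 2 * c ^ 2) + c ^ 6

lemma motzkin_eval {n : ℕ} (a b c : MvPolynomial (Fin n) ℝ) (x : Fin n → ℝ) :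
    eval x (motzkin a b c) = (eval x a) ^ 4 * (eval x b) ^ 2 + (eval x a) ^ 2 * (eval x b) ^ 4
      - 3 * ((eval x a) ^ 2 * (eval x b) ^ 2 * (eval x c) ^ 2) + (eval x c) ^ 6 := by
  simp [motzkin]

/-- A quadratic form times `M(x,y,z) + c s⁶` is not sos as soon as the quadratic form contains
`s²`. Here `s = X 0`. -/
lemma core (Q : MvPolynomial (Fin 4) ℝ) (hQ : Q.IsHomogeneous 2)
    (hQ0 : eval ![1, 0, 0, 0] Q ≠ 0) (c : ℝ) {ι : Type} (s : Finset ι)
    (H : ι → MvPolynomial (Fin 4) ℝ) (hH : ∀ i, (H i).IsHomogeneous 4)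
    (heq : Q * (motzkin (X 1) (X 2) (X 3) + C c * X 0 ^ 6) = ∑ i ∈ s, H i ^ 2) : False := by
  classical
  set E := finSuccEquiv ℝ 3 with hE
  have e0 : E (X 0) = Polynomial.X := finSuccEquiv_X_zero
  have e1 : E (X 1) = Polynomial.C (X 0) := finSuccEquiv_X_succ (j := (0 : Fin 3))
  have e2 : E (X 2) = Polynomial.C (X 1) := finSuccEquiv_X_succ (j := (1 : Fin 3))
  have e3 : E (X 3) = Polynomial.C (X 2) := finSuccEquiv_X_succ (j := (2 : Fin 3))
  have eC : E (C c) = Polynomial.C (C c) := by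
    have := finSuccEquiv_apply (R := ℝ) (n := 3) (C c)
    rw [hE, this]
    simp
  set M : MvPolynomial (Fin 3) ℝ := motzkin (X 0) (X 1) (X 2) with hM
  have eM : E (motzkin (X 1) (X 2) (X 3)) = Polynomial.C M := by
    have e3' : E 3 = 3 := map_ofNat E 3
    rw [hM, motzkin, motzkin]
    simp only [map_add, map_sub, map_mul, map_pow, e1, e2, e3, e3', map_ofNat]
  have heq2 : E Q * (Polynomial.C M + Polynomial.C (C c) * Polynomial.X ^ 6) =
      ∑ i ∈ s, E (H i) ^ 2 := by
    have := congrArg E heq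
    rw [map_mul, map_add, eM, map_mul, map_pow, e0, eC, map_sum] at this
    simpa only [map_pow] using this
  -- the coefficients of the `H i`
  have hg : ∀ i j k, j + k = 4 → ((E (H i)).coeff j).IsHomogeneous k := fun i j k h =>
    (hH i).finSuccEquiv_coeff_isHomogeneous j k h
  -- the coefficient of `s²` in `Q`
  have hQ2 : ((E Q).coeff 2).IsHomogeneous 0 :=
    hQ.finSuccEquiv_coeff_isHomogeneous 2 0 rfl
  obtain ⟨c', hc'⟩ : ∃ c' : ℝ, (E Q).coeff 2 = C c' :=
    ⟨_, totalDegree_eq_zero_iff_eq_C.mp (Nat.le_zero.mp hQ2.totalDegree_le)⟩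
  have hc0 : c' ≠ 0 := by
    intro h0
    apply hQ0
    have h1 : (![1, 0, 0, 0] : Fin 4 → ℝ) = Fin.cons 1 (fun _ => 0) := by
      ext i
      fin_cases i <;> rfl
    rw [h1, eval_eq_eval_mv_eval', ← hE]
    have h2 : Polynomial.map (eval (fun _ => (0 : ℝ))) (E Q) = 0 := by
      ext k
      rw [Polynomial.coeff_map, Polynomial.coeff_zero]
      rcases lt_trichotomy k 2 with hk | hk | hk
      · have h3 := hQ.finSuccEquiv_coeff_isHomogeneous k (2 - k) (by omega)
        rw [← hE] at h3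
        obtain ⟨m, hm⟩ : ∃ m, 2 - k = m + 1 := ⟨1 - k, by omega⟩
        rw [hm] at h3
        obtain ⟨q, -, hq⟩ := exists_decomp m _ h3
        rw [hq, map_sum]
        simp
      · rw [hk, hc', h0]; simp
      · have : (E Q).natDegree ≤ 2 := by
          rw [hE, natDegree_finSuccEquiv]
          exact (degreeOf_le_totalDegree Q 0).trans hQ.totalDegree_le
        rw [Polynomial.coeff_eq_zero_of_natDegree_lt (by omega)]
        simp
    rw [h2]; simp
  -- vanishing at the zeros of the Motzkin form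
  have hvan : ∀ a : Fin 3 → ℝ, eval a M = 0 → ∀ i ∈ s, ∀ j < 3, eval a ((E (H i)).coeff j) = 0 := by
    intro a ha i hi j hj
    have h1 := congrArg (Polynomial.map (eval a)) heq2
    rw [Polynomial.map_mul, Polynomial.map_add, Polynomial.map_C, ha, Polynomial.map_mul,
      Polynomial.map_pow, Polynomial.map_X, Polynomial.map_C, eval_C, Polynomial.C_0, zero_add,
      Polynomial.map_sum] at h1
    simp only [Polynomial.map_pow] at h1
    have h2 := X_pow_dvd_of_sum_sq s 3 (fun i => Polynomial.map (eval a) (E (H i)))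
      (by rw [← h1]; exact ⟨Polynomial.map (eval a) (E Q) * Polynomial.C c, by ring⟩) i hi
    rw [Polynomial.X_pow_dvd_iff] at h2
    have := h2 j hj
    rwa [Polynomial.coeff_map] at this
  have hMev : ∀ x y z : ℝ, eval ![x, y, z] M =
      x ^ 4 * y ^ 2 + x ^ 2 * y ^ 4 - 3 * (x ^ 2 * y ^ 2 * z ^ 2) + z ^ 6 := by
    intro x y z
    rw [hM, motzkin_eval]
    simp
  -- the coefficients of `s²` in the `H i` vanish
  have h2van : ∀ i ∈ s, (E (H i)).coeff 2 = 0 := by
    intro i hi
    obtain ⟨a1, a2, a3, a4, a5, a6, ha⟩ := eval_form_two _ (hg i 2 2 rfl)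
    have v1 := hvan ![1, 0, 0] (by rw [hMev]; norm_num) i hi 2 (by norm_num)
    have v2 := hvan ![0, 1, 0] (by rw [hMev]; norm_num) i hi 2 (by norm_num)
    have v3 := hvan ![1, 1, 1] (by rw [hMev]; norm_num) i hi 2 (by norm_num)
    have v4 := hvan ![1, -1, 1] (by rw [hMev]; norm_num) i hi 2 (by norm_num)
    have v5 := hvan ![-1, 1, 1] (by rw [hMev]; norm_num) i hi 2 (by norm_num)
    have v6 := hvan ![-1, -1, 1] (by rw [hMev]; norm_num) i hi 2 (by norm_num)
    rw [ha] at v1 v2 v3 v4 v5 v6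
    norm_num at v1 v2 v3 v4 v5 v6
    have w3 : a3 = 0 := by linarith
    have w4 : a4 = 0 := by linarith
    have w5 : a5 = 0 := by linarith
    have w6 : a6 = 0 := by linarith
    apply MvPolynomial.funext
    intro x
    have hx : x = ![x 0, x 1, x 2] := by
      ext j
      fin_cases j <;> rfl
    rw [hx, ha, v1, v2, w3, w4, w5, w6]
    simp
  -- comparison of the coefficients of `s²`
  have hcomp : C c' * M = ∑ i ∈ s, ((E (H i)).coeff 1) ^ 2 := by
    have h1 := congrArg (fun p => Polynomial.coeff p 2) heq2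
    simp only [mul_add, Polynomial.coeff_add, Polynomial.coeff_mul_C, Polynomial.finsetSum_coeff]
      at h1
    rw [← mul_assoc, Polynomial.coeff_mul_X_pow', if_neg (by norm_num), add_zero, hc'] at h1
    rw [h1]
    refine Finset.sum_congr rfl (fun i hi => ?_)
    have hanti : Finset.antidiagonal 2 = {((0 : ℕ), (2 : ℕ)), (1, 1), (2, 0)} := rfl
    rw [sq, Polynomial.coeff_mul, hanti]
    simp [h2van i hi]
    ring
  -- now the `coeff 1` are cubic forms
  have hcub := fun i => eval_form_three _ (hg i 1 3 rfl)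
  choose b1 b2 b3 b4 b5 b6 b7 b8 b9 b10 hb using hcub
  have hline1 : ∀ i ∈ s, b1 i = 0 ∧ b5 i = 0 ∧ b8 i = 0 := by
    intro i hi
    have h1 : ∑ i ∈ s, (Polynomial.C (b1 i) + Polynomial.C (b5 i) * Polynomial.X +
        Polynomial.C (b8 i) * Polynomial.X ^ 2 + Polynomial.C (b10 i) * Polynomial.X ^ 3) ^ 2 =
        Polynomial.C c' * (Polynomial.X : Polynomial ℝ) ^ 6 := by
      apply Polynomial.funext
      intro z
      have h2 := congrArg (eval ![1, 0, z]) hcomp
      rw [map_mul, eval_C, hMev, map_sum] at h2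
      simp only [map_pow, hb] at h2
      rw [Polynomial.eval_finsetSum]
      simp only [Polynomial.eval_pow, Polynomial.eval_add, Polynomial.eval_mul, Polynomial.eval_C,
        Polynomial.eval_X]
      rw [show c' * z ^ 6 = c' * (1 ^ 4 * 0 ^ 2 + 1 ^ 2 * 0 ^ 4 - 3 * (1 ^ 2 * 0 ^ 2 * z ^ 2) +
        z ^ 6) by ring, h2]
      refine Finset.sum_congr rfl (fun i _ => ?_)
      ring
    have h3 := X_pow_dvd_of_sum_sq s 3 _ (by rw [h1]; exact ⟨Polynomial.C c', by ring⟩) i hi
    rw [Polynomial.X_pow_dvd_iff] at h3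
    refine ⟨?_, ?_, ?_⟩
    · simpa [Polynomial.coeff_X, Polynomial.coeff_C] using h3 0 (by norm_num)
    · simpa [Polynomial.coeff_X, Polynomial.coeff_C] using h3 1 (by norm_num)
    · simpa [Polynomial.coeff_X, Polynomial.coeff_C] using h3 2 (by norm_num)
  have hline2 : ∀ i ∈ s, b4 i = 0 ∧ b7 i = 0 ∧ b9 i = 0 := by
    intro i hi
    have h1 : ∑ i ∈ s, (Polynomial.C (b4 i) + Polynomial.C (b7 i) * Polynomial.X +
        Polynomial.C (b9 i) * Polynomial.X ^ 2 + Polynomial.C (b10 i) * Polynomial.X ^ 3) ^ 2 =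
        Polynomial.C c' * (Polynomial.X : Polynomial ℝ) ^ 6 := by
      apply Polynomial.funext
      intro z
      have h2 := congrArg (eval ![0, 1, z]) hcomp
      rw [map_mul, eval_C, hMev, map_sum] at h2
      simp only [map_pow, hb] at h2
      rw [Polynomial.eval_finsetSum]
      simp only [Polynomial.eval_pow, Polynomial.eval_add, Polynomial.eval_mul, Polynomial.eval_C,
        Polynomial.eval_X]
      rw [show c' * z ^ 6 = c' * (0 ^ 4 * 1 ^ 2 + 0 ^ 2 * 1 ^ 4 - 3 * (0 ^ 2 * 1 ^ 2 * z ^ 2) +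
        z ^ 6) by ring, h2]
      refine Finset.sum_congr rfl (fun i _ => ?_)
      ring
    have h3 := X_pow_dvd_of_sum_sq s 3 _ (by rw [h1]; exact ⟨Polynomial.C c', by ring⟩) i hi
    rw [Polynomial.X_pow_dvd_iff] at h3
    refine ⟨?_, ?_, ?_⟩
    · simpa [Polynomial.coeff_X, Polynomial.coeff_C] using h3 0 (by norm_num)
    · simpa [Polynomial.coeff_X, Polynomial.coeff_C] using h3 1 (by norm_num)
    · simpa [Polynomial.coeff_X, Polynomial.coeff_C] using h3 2 (by norm_num)
  have hall : ∀ i ∈ s, eval ![0, 0, 1] ((E (H i)).coeff 1) = 0 := by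
    intro i hi
    have v3 := hvan ![1, 1, 1] (by rw [hMev]; norm_num) i hi 1 (by norm_num)
    have v4 := hvan ![1, -1, 1] (by rw [hMev]; norm_num) i hi 1 (by norm_num)
    have v5 := hvan ![-1, 1, 1] (by rw [hMev]; norm_num) i hi 1 (by norm_num)
    have v6 := hvan ![-1, -1, 1] (by rw [hMev]; norm_num) i hi 1 (by norm_num)
    obtain ⟨z1, z5, z8⟩ := hline1 i hi
    obtain ⟨z4, z7, z9⟩ := hline2 i hi
    rw [hb, z1, z5, z8, z4, z7, z9] at v3 v4 v5 v6
    norm_num at v3 v4 v5 v6
    rw [hb]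
    norm_num
    linarith
  have hfin := congrArg (eval ![0, 0, 1]) hcomp
  rw [map_mul, eval_C, hMev, map_sum, Finset.sum_eq_zero (fun i hi => by
    rw [map_pow, hall i hi]; norm_num)] at hfin
  norm_num at hfin
  exact hc0 hfin

/-- The form `M(x₁,x₂,x₃)` in six variables. -/
noncomputable def p₁ : MvPolynomial (Fin 6) ℝ := motzkin (X 0) (X 1) (X 2)

/-- The form `M(x₄,x₅,x₆)` in six variables. -/
noncomputable def p₂ : MvPolynomial (Fin 6) ℝ := motzkin (X 3) (X 4) (X 5)

lemma motzkin_homogeneous {n : ℕ} (a b c : MvPolynomial (Fin n) ℝ) (ha : a.IsHomogeneous 1)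
    (hb : b.IsHomogeneous 1) (hc : c.IsHomogeneous 1) : (motzkin a b c).IsHomogeneous 6 := by
  have h3 : (3 : MvPolynomial (Fin n) ℝ) = C 3 := (map_ofNat C 3).symm
  refine ((((ha.pow 4).mul (hb.pow 2)).add ((ha.pow 2).mul (hb.pow 4))).sub ?_).add (hc.pow 6)
  rw [h3]
  have := (isHomogeneous_C (Fin n) (3 : ℝ)).mul (((ha.pow 2).mul (hb.pow 2)).mul (hc.pow 2))
  simpa using this

lemma motzkin_mem {n : ℕ} (i j k : Fin n) (hij : i ≠ j) (hik : i ≠ k) :
    motzkin (X i) (X j) (X k) ∈ artinCone n 3 1 := by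
  refine ⟨motzkin_homogeneous _ _ _ (isHomogeneous_X _ _) (isHomogeneous_X _ _)
    (isHomogeneous_X _ _), (X i : MvPolynomial (Fin n) ℝ) ^ 2 + X j ^ 2 + X k ^ 2, ?_, ?_, ?_, ?_⟩
  · intro h
    have := congrArg (eval (fun l => if l = i then (1 : ℝ) else 0)) h
    simp [hij.symm, hik.symm] at this
  · exact (((isHomogeneous_X _ _).pow 2).add ((isHomogeneous_X _ _).pow 2)).add
      ((isHomogeneous_X _ _).pow 2)
  · refine ⟨3, ![X i, X j, X k], ?_⟩
    rw [Fin.sum_univ_three]
    rfl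
  · refine ⟨5, ![X i ^ 2 * X j * X k - X j * X k ^ 3, X i * X j ^ 2 * X k - X i * X k ^ 3,
      X i ^ 2 * X j ^ 2 - X k ^ 4, C (1 / 2) * (X i * X j ^ 3 - X i ^ 3 * X j),
      C (Real.sqrt 3 / 2) * (X i * X j ^ 3 + X i ^ 3 * X j - 2 * X i * X j * X k ^ 2)], ?_⟩
    rw [Fin.sum_univ_five]
    change _ = (X i ^ 2 * X j * X k - X j * X k ^ 3) ^ 2 +
      (X i * X j ^ 2 * X k - X i * X k ^ 3) ^ 2 + (X i ^ 2 * X j ^ 2 - X k ^ 4) ^ 2 +
      (C (1 / 2) * (X i * X j ^ 3 - X i ^ 3 * X j)) ^ 2 +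
      (C (Real.sqrt 3 / 2) * (X i * X j ^ 3 + X i ^ 3 * X j - 2 * X i * X j * X k ^ 2)) ^ 2
    apply MvPolynomial.funext
    intro x
    have h3 : Real.sqrt 3 ^ 2 = 3 := Real.sq_sqrt (by norm_num)
    rw [map_mul, motzkin_eval]
    simp only [map_add, map_sub, map_mul, map_pow, eval_X, eval_C, map_ofNat]
    linear_combination (-(1 / 4) * (x i * x j ^ 3 + x i ^ 3 * x j - 2 * x i * x j * x k ^ 2) ^ 2) *
      h3

/-- Artin cones are closed under multiplication by nonnegative scalars. -/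
lemma smul_mem {n d r : ℕ} (a : ℝ) (ha : 0 ≤ a) {p : MvPolynomial (Fin n) ℝ}
    (hp : p ∈ artinCone n d r) : C a * p ∈ artinCone n d r := by
  obtain ⟨h1, q, hq0, hq1, hq2, m, g, hg⟩ := hp
  refine ⟨?_, q, hq0, hq1, hq2, m, fun i => C (Real.sqrt a) * g i, ?_⟩
  · have := (isHomogeneous_C (Fin n) a).mul h1
    simpa using this
  · rw [mul_assoc, hg, Finset.mul_sum]
    refine Finset.sum_congr rfl (fun i _ => ?_)
    rw [mul_pow, ← C_pow, Real.sq_sqrt ha]

lemma eval_aeval {n m : ℕ} (g : Fin n → MvPolynomial (Fin m) ℝ) (x : Fin m → ℝ)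
    (q : MvPolynomial (Fin n) ℝ) : eval x (aeval g q) = eval (fun i => eval x (g i)) q := by
  induction q using MvPolynomial.induction_on with
  | C a => simp
  | add p q hp hq => rw [map_add, map_add, map_add, hp, hq]
  | mul_X p i hp => rw [map_mul, map_mul, map_mul, hp, aeval_X, eval_X]

/-- The substitution used in the reduction to four variables. -/
lemma not_mem (q : MvPolynomial (Fin 6) ℝ) (hq : q.IsHomogeneous 2) (g : Fin 6 → MvPolynomial (Fin 4) ℝ)
    (hg : ∀ i, (g i).IsHomogeneous 1) (c : ℝ)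
    (hp : aeval g (p₁ + p₂) = motzkin (X 1) (X 2) (X 3) + C c * X 0 ^ 6)
    (hq0 : eval ![1, 0, 0, 0] (aeval g q) ≠ 0) : ¬ IsSos ((p₁ + p₂) * q) := by
  rintro ⟨m, h, hh⟩
  have hhom : ((p₁ + p₂) * q).IsHomogeneous (2 * 4) := by
    have := ((motzkin_homogeneous (X 0 : MvPolynomial (Fin 6) ℝ) (X 1) (X 2) (isHomogeneous_X _ _)
      (isHomogeneous_X _ _) (isHomogeneous_X _ _)).add (motzkin_homogeneous
        (X 3 : MvPolynomial (Fin 6) ℝ) (X 4) (X 5) (isHomogeneous_X _ _)
      (isHomogeneous_X _ _) (isHomogeneous_X _ _))).mul hq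
    exact this
  have h1 := sum_sq_homogeneousComponent Finset.univ h _ 4 hhom hh
  have h2 := congrArg (aeval g) h1
  rw [map_mul, hp, map_sum] at h2
  simp only [map_pow] at h2
  refine core (aeval g q) ?_ hq0 c Finset.univ
    (fun i => aeval g (homogeneousComponent 4 (h i))) ?_ (by rw [mul_comm]; exact h2)
  · have := hq.aeval g hg
    simpa using this
  · intro i
    have := (homogeneousComponent_isHomogeneous 4 (h i)).aeval g hg
    simpa using this

/-- **Main result.**  The Artin cone `A¹_{6,6}` (six variables, degree `6`, level `r = 1`) is not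
convex: the two Motzkin forms `M(x₁,x₂,x₃)` and `M(x₄,x₅,x₆)` lie in it, but their sum does not. -/
theorem result :
    (¬ ∀ n d r : ℕ, 1 ≤ n → 1 ≤ d → Convex ℝ (artinCone n d r)) ∧
    (p₁ ∈ artinCone 6 3 1 ∧ p₂ ∈ artinCone 6 3 1 ∧ p₁ + p₂ ∉ artinCone 6 3 1) := by
  have hp1 : p₁ ∈ artinCone 6 3 1 := motzkin_mem _ _ _ (by decide) (by decide)
  have hp2 : p₂ ∈ artinCone 6 3 1 := motzkin_mem _ _ _ (by decide) (by decide)
  have key : p₁ + p₂ ∉ artinCone 6 3 1 := by
    rintro ⟨-, q, hq0, hq, ⟨m, l, hl⟩, hsos⟩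
    have hlin := sum_sq_homogeneousComponent Finset.univ l q 1 hq hl
    -- a point at which `q` does not vanish
    obtain ⟨y, hy⟩ : ∃ y : Fin 6 → ℝ, eval y q ≠ 0 := by
      by_contra hcon
      push Not at hcon
      exact hq0 (MvPolynomial.funext (fun y => by rw [hcon y, map_zero]))
    obtain ⟨k, hk⟩ : ∃ k, eval y (homogeneousComponent 1 (l k)) ≠ 0 := by
      by_contra hcon
      push Not at hcon
      apply hy
      rw [hlin, map_sum]
      exact Finset.sum_eq_zero (fun i _ => by rw [map_pow, hcon i]; norm_num)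
    set u : Fin 6 → ℝ := ![y 0, y 1, y 2, 0, 0, 0] with hu
    set v : Fin 6 → ℝ := ![0, 0, 0, y 3, y 4, y 5] with hv
    have hadd : eval y (homogeneousComponent 1 (l k)) =
        eval u (homogeneousComponent 1 (l k)) + eval v (homogeneousComponent 1 (l k)) := by
      obtain ⟨r, hr, hpr⟩ := exists_decomp 0 _ (homogeneousComponent_isHomogeneous 1 (l k))
      have h0 : ∀ i, ∃ a : ℝ, r i = C a := fun i =>
        ⟨_, totalDegree_eq_zero_iff_eq_C.mp (Nat.le_zero.mp (hr i).totalDegree_le)⟩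
      choose a ha using h0
      rw [hpr]
      simp only [map_sum, map_mul, eval_X, ha, eval_C]
      rw [← Finset.sum_add_distrib]
      refine Finset.sum_congr rfl (fun i _ => ?_)
      fin_cases i <;> simp [hu, hv]
    have hqpos : ∀ w : Fin 6 → ℝ, eval w (homogeneousComponent 1 (l k)) ≠ 0 → eval w q ≠ 0 := by
      intro w hw
      have : 0 < eval w q := by
        rw [hlin, map_sum]
        refine Finset.sum_pos' (fun i _ => by rw [map_pow]; positivity) ⟨k, Finset.mem_univ k, ?_⟩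
        rw [map_pow]
        positivity
      exact this.ne'
    have hor : eval u (homogeneousComponent 1 (l k)) ≠ 0 ∨
        eval v (homogeneousComponent 1 (l k)) ≠ 0 := by
      by_contra hcon
      push Not at hcon
      rw [hcon.1, hcon.2, add_zero] at hadd
      exact hk hadd
    have hX : ∀ a : ℝ, (C a * X 0 : MvPolynomial (Fin 4) ℝ).IsHomogeneous 1 := fun a => by
      have := (isHomogeneous_C (Fin 4) a).mul (isHomogeneous_X ℝ (0 : Fin 4))
      simpa using this
    rcases hor with h | h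
    · refine not_mem q hq ![C (y 0) * X 0, C (y 1) * X 0, C (y 2) * X 0, X 1, X 2, X 3] ?_
        (y 0 ^ 4 * y 1 ^ 2 + y 0 ^ 2 * y 1 ^ 4 - 3 * (y 0 ^ 2 * y 1 ^ 2 * y 2 ^ 2) + y 2 ^ 6)
        ?_ ?_ hsos
      · intro i
        fin_cases i
        · exact hX _
        · exact hX _
        · exact hX _
        · exact isHomogeneous_X _ _
        · exact isHomogeneous_X _ _
        · exact isHomogeneous_X _ _
      · apply MvPolynomial.funext
        intro x
        simp only [p₁, p₂, motzkin, map_add, map_sub, map_mul, map_pow, aeval_X, map_ofNat]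
        simp
        ring
      · have := hqpos u h
        have hE : (fun i => eval ![1, 0, 0, 0] (![C (y 0) * X 0, C (y 1) * X 0, C (y 2) * X 0,
            X 1, X 2, X 3] i : MvPolynomial (Fin 4) ℝ)) = u := by
          funext i
          fin_cases i <;> simp [hu]
        rw [eval_aeval, hE]
        exact this
    · refine not_mem q hq ![X 1, X 2, X 3, C (y 3) * X 0, C (y 4) * X 0, C (y 5) * X 0] ?_
        (y 3 ^ 4 * y 4 ^ 2 + y 3 ^ 2 * y 4 ^ 4 - 3 * (y 3 ^ 2 * y 4 ^ 2 * y 5 ^ 2) + y 5 ^ 6)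
        ?_ ?_ hsos
      · intro i
        fin_cases i
        · exact isHomogeneous_X _ _
        · exact isHomogeneous_X _ _
        · exact isHomogeneous_X _ _
        · exact hX _
        · exact hX _
        · exact hX _
      · apply MvPolynomial.funext
        intro x
        simp only [p₁, p₂, motzkin, map_add, map_sub, map_mul, map_pow, aeval_X, map_ofNat]
        simp
        ring
      · have := hqpos v h
        have hE : (fun i => eval ![1, 0, 0, 0] (![X 1, X 2, X 3, C (y 3) * X 0, C (y 4) * X 0,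
            C (y 5) * X 0] i : MvPolynomial (Fin 4) ℝ)) = v := by
          funext i
          fin_cases i <;> simp [hv]
        rw [eval_aeval, hE]
        exact this
  refine ⟨fun hall => ?_, hp1, hp2, key⟩
  have hconv := hall 6 3 1 (by norm_num) (by norm_num)
  have hmid := hconv hp1 hp2 (a := 1 / 2) (b := 1 / 2) (by norm_num) (by norm_num) (by norm_num)
  apply key
  have h2 : p₁ + p₂ = C 2 * ((1 / 2 : ℝ) • p₁ + (1 / 2 : ℝ) • p₂) := by
    rw [mul_add, smul_eq_C_mul, smul_eq_C_mul, ← mul_assoc, ← mul_assoc, ← C_mul]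
    norm_num
  rw [h2]
  exact smul_mem 2 (by norm_num) hmid

end Pool.Agent.Results.MP_9eb66c_ag.NotConvex
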